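import Pool.Agent.Work.MP_b29d7f_ns.Interface3
import Pool.Agent.Work.MP_b29d7f_ns_helper74.Refl

/-!
# Block APX: from grid sets to measurable sets
-/

set_option autoImplicit false

open Finset Filter Topology MeasureTheory

namespace Pool.NS

namespace APX_

/-! ## local integrability of the logarithm -/

/-- one-variable factors of the majorant -/
noncomputable def fac {k : ℕ} (i₀ : Fin k) (R : ℝ) (i : Fin k) (t : ℝ) : ℝ :=
  Set.indicator (Set.Icc (-R) R) (fun t => if i = i₀ then |Real.log t| + |R| else 1) t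

lemma fac_int {k : ℕ} (i₀ : Fin k) (R : ℝ) (i : Fin k) : Integrable (fac i₀ R i) := by
  unfold fac
  rw [integrable_indicator_iff measurableSet_Icc]
  by_cases hR : 0 ≤ R
  · have hle : -R ≤ R := by linarith
    by_cases h : i = i₀
    · simp only [if_pos h]
      rw [integrableOn_Icc_iff_integrableOn_Ioc,
        ← intervalIntegrable_iff_integrableOn_Ioc_of_le hle]
      exact (intervalIntegral.intervalIntegrable_log'.abs).add intervalIntegrable_const
    · simp only [if_neg h]
      exact integrableOn_const (by simp)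
  · rw [Set.Icc_eq_empty (by linarith)]
    exact integrableOn_empty

lemma fac_prod_int {k : ℕ} (i₀ : Fin k) (R : ℝ) :
    Integrable (fun z : E k => ∏ i, fac i₀ R i (z i)) := by
  have h1 : Integrable (fun x : Fin k → ℝ => ∏ i, fac i₀ R i (x i)) :=
    Integrable.fintype_prod_dep (fun i => fac_int i₀ R i)
  have h2 := (EuclideanSpace.volume_preserving_symm_measurableEquiv_toLp (Fin k)).integrable_comp_emb
    (MeasurableEquiv.toLp 2 (Fin k → ℝ)).symm.measurableEmbedding
    (g := fun x : Fin k → ℝ => ∏ i, fac i₀ R i (x i))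
  exact h2.2 h1

lemma ae_coord_ne {k : ℕ} (i₀ : Fin k) : ∀ᵐ z : E k, z i₀ ≠ 0 := by
  have h := Measure.addHaar_submodule (volume : Measure (E k))
    (LinearMap.ker (EuclideanSpace.proj i₀ : E k →L[ℝ] ℝ).toLinearMap) (by
      intro htop
      have h1 : (EuclideanSpace.single i₀ (1 : ℝ) : E k) ∈
          LinearMap.ker (EuclideanSpace.proj i₀ : E k →L[ℝ] ℝ).toLinearMap := by
        rw [htop]; trivial
      rw [LinearMap.mem_ker] at h1
      simp at h1)
  filter_upwards [compl_mem_ae_iff.2 h] with z hz hz0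
  apply hz
  show z ∈ LinearMap.ker (EuclideanSpace.proj i₀ : E k →L[ℝ] ℝ).toLinearMap
  rw [LinearMap.mem_ker]
  exact hz0

lemma abs_coord_le {k : ℕ} (z : E k) (i : Fin k) : |z i| ≤ ‖z‖ := by
  have := PiLp.norm_apply_le z i
  rwa [Real.norm_eq_abs] at this

lemma log_on {k : ℕ} (hk : 0 < k) (R : ℝ) :
    IntegrableOn (fun z : E k => |Real.log ‖z‖|) (Metric.closedBall 0 R) := by
  set i₀ : Fin k := ⟨0, hk⟩ with hi₀
  rw [← integrable_indicator_iff Metric.isClosed_closedBall.measurableSet]
  apply (fac_prod_int i₀ R).mono' (by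
    apply Measurable.aestronglyMeasurable
    apply Measurable.indicator _ Metric.isClosed_closedBall.measurableSet
    fun_prop)
  filter_upwards [ae_coord_ne i₀] with z hz
  by_cases hmem : z ∈ Metric.closedBall (0 : E k) R
  · rw [Set.indicator_of_mem hmem, Real.norm_eq_abs, abs_abs]
    have hzR : ‖z‖ ≤ R := by simpa using hmem
    have hfac : ∀ i, fac i₀ R i (z i) = if i = i₀ then |Real.log (z i)| + |R| else 1 := by
      intro i
      unfold fac
      rw [Set.indicator_of_mem]
      exact abs_le.1 ((abs_coord_le z i).trans hzR)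
    simp only [hfac]
    rw [Finset.prod_ite_eq' Finset.univ i₀ (fun i => |Real.log (z i)| + |R|),
      if_pos (Finset.mem_univ _)]
    have hpos : 0 < |z i₀| := abs_pos.2 hz
    have hle := abs_coord_le z i₀
    have hzp : 0 < ‖z‖ := lt_of_lt_of_le hpos hle
    rcases le_total ‖z‖ 1 with h1 | h1
    · have h2 : Real.log |z i₀| ≤ Real.log ‖z‖ := Real.log_le_log hpos hle
      have h3 : Real.log ‖z‖ ≤ 0 := Real.log_nonpos hzp.le h1
      rw [abs_of_nonpos h3]
      rw [Real.log_abs] at h2
      have h4 := neg_abs_le (Real.log (z i₀))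
      have h5 := abs_nonneg R
      linarith
    · have h2 : 0 ≤ Real.log ‖z‖ := Real.log_nonneg h1
      have h3 := Real.log_le_sub_one_of_pos hzp
      rw [abs_of_nonneg h2]
      have h4 := le_abs_self R
      have h5 := abs_nonneg (Real.log (z i₀))
      linarith
  · rw [Set.indicator_of_notMem hmem, norm_zero]
    apply Finset.prod_nonneg
    intro i _
    unfold fac
    apply Set.indicator_nonneg
    intro t _
    split_ifs
    · positivity
    · norm_num

/-- the truncated kernel -/
noncomputable def Lk (k : ℕ) (R : ℝ) (z : E k) : ℝ :=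
  Set.indicator (Metric.closedBall 0 R) (fun z => |Real.log ‖z‖|) z

lemma Lk_int {k : ℕ} (hk : 0 < k) (R : ℝ) : Integrable (Lk k R) := by
  unfold Lk
  rw [integrable_indicator_iff Metric.isClosed_closedBall.measurableSet]
  exact log_on hk R

lemma Lk_nonneg {k : ℕ} (R : ℝ) (z : E k) : 0 ≤ Lk k R z :=
  Set.indicator_nonneg (fun _ _ => abs_nonneg _) _

lemma Lk_eq {k : ℕ} {R : ℝ} {z : E k} (h : ‖z‖ ≤ R) : Lk k R z = |Real.log ‖z‖| := by
  unfold Lk
  rw [Set.indicator_of_mem]
  simpa using h

/-! ## reflections -/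

lemma uv_norm {k : ℕ} (U : E k ≃ₗᵢ[ℝ] E k) (i₀ : Fin k) : ‖uv U i₀‖ = 1 := by
  unfold uv
  rw [LinearIsometryEquiv.norm_map]
  simp

lemma uv_inner {k : ℕ} (U : E k ≃ₗᵢ[ℝ] E k) (i₀ : Fin k) (z : E k) :
    inner ℝ (uv U i₀) z = (U z) i₀ := by
  unfold uv
  rw [← LinearIsometryEquiv.inner_map_map U, LinearIsometryEquiv.apply_symm_apply,
    EuclideanSpace.inner_single_left]
  simp

section refl

variable {k : ℕ} {u : E k} (hu : ‖u‖ = 1) (a : ℝ)

include hu

lemma rfx_rfx (z : E k) : rfx u a (rfx u a z) = z := by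
  unfold rfx
  have huu : inner ℝ u u = 1 := by rw [real_inner_self_eq_norm_sq, hu]; norm_num
  rw [inner_sub_right, inner_smul_right, huu, sub_sub, ← add_smul]
  have : 2 * (inner ℝ u z - a) + 2 * (inner ℝ u z - 2 * (inner ℝ u z - a) * 1 - a) = 0 := by ring
  rw [this, zero_smul, sub_zero]

lemma rfx_dist (z z' : E k) : ‖rfx u a z - rfx u a z'‖ = ‖z - z'‖ := by
  have huu : inner ℝ u u = 1 := by rw [real_inner_self_eq_norm_sq, hu]; norm_num
  have e : rfx u a z - rfx u a z' = (z - z') - (2 * inner ℝ u (z - z')) • u := by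
    unfold rfx
    rw [inner_sub_right]
    module
  rw [e]
  have h2 : ‖(z - z') - (2 * inner ℝ u (z - z')) • u‖ ^ 2 = ‖z - z'‖ ^ 2 := by
    rw [norm_sub_sq_real, inner_smul_right, norm_smul, hu, mul_one, Real.norm_eq_abs, sq_abs,
      real_inner_comm]
    ring
  have h3 := norm_nonneg ((z - z') - (2 * inner ℝ u (z - z')) • u)
  have h4 := norm_nonneg (z - z')
  nlinarith [abs_le_abs_of_nonneg h3 (le_refl _), sq_nonneg (‖(z - z') - (2 * inner ℝ u (z - z')) • u‖ - ‖z - z'‖),
    (sq_eq_sq₀ h3 h4).1 h2]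

lemma rfx_dist' (z z' : E k) : ‖z - rfx u a z'‖ = ‖rfx u a z - z'‖ := by
  have := rfx_dist hu a z (rfx u a z')
  rw [rfx_rfx hu] at this
  exact this.symm

lemma rfx_center : rfx u a (a • u) = a • u := by
  have huu : inner ℝ u u = 1 := by rw [real_inner_self_eq_norm_sq, hu]; norm_num
  unfold rfx
  rw [inner_smul_right, huu, mul_one, sub_self, mul_zero, zero_smul, sub_zero]

lemma rfx_ball {R : ℝ} {z : E k} (hz : ‖z - a • u‖ ≤ R) : ‖rfx u a z - a • u‖ ≤ R := by
  have := rfx_dist hu a z (a • u)
  rw [rfx_center hu] at this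
  rw [this]; exact hz

lemma rfx_inner (z : E k) : inner ℝ u (rfx u a z) = 2 * a - inner ℝ u z := by
  have huu : inner ℝ u u = 1 := by rw [real_inner_self_eq_norm_sq, hu]; norm_num
  unfold rfx
  rw [inner_sub_right, inner_smul_right, huu]
  ring

end refl

lemma rfx_cont {k : ℕ} (u : E k) (a : ℝ) : Continuous (rfx u a) := by
  unfold rfx; fun_prop

lemma swp_meas {k : ℕ} (u : E k) (a : ℝ) {Q : Set (E k)} (hQ : MeasurableSet Q) :
    Measurable (swp u a Q) := by
  unfold swp
  apply Measurable.ite _ (rfx_cont u a).measurable measurable_id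
  exact hQ.union ((rfx_cont u a).measurable hQ)

/-- the kernel bound -/
lemma kern_le {k : ℕ} {u : E k} (hu : ‖u‖ = 1) (a : ℝ) (Q : Set (E k)) (z z' : E k) :
    |Real.log ‖swp u a Q z - swp u a Q z'‖ - Real.log ‖z - z'‖| ≤
      2 * |Real.log ‖z - z'‖| + |Real.log ‖rfx u a z - z'‖| := by
  classical
  have h1 : |Real.log ‖swp u a Q z - swp u a Q z'‖| ≤
      |Real.log ‖z - z'‖| + |Real.log ‖rfx u a z - z'‖| := by
    have p1 := abs_nonneg (Real.log ‖z - z'‖)
    have p2 := abs_nonneg (Real.log ‖rfx u a z - z'‖)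
    unfold swp
    split_ifs
    · rw [rfx_dist hu]; linarith
    · linarith
    · rw [rfx_dist' hu]; linarith
    · linarith
  have h2 := abs_sub (Real.log ‖swp u a Q z - swp u a Q z'‖) (Real.log ‖z - z'‖)
  linarith

/-! ## grids -/

lemma grd_meas {k : ℕ} (U : E k ≃ₗᵢ[ℝ] E k) (i₀ : Fin k) (a : ℝ) (p : ℕ)
    (F : Finset (Fin k → ℤ)) : MeasurableSet (grd U i₀ a p F) := by
  have hm : Measurable (fun z : E k => (fun i => ⌊(2 : ℝ) ^ p * ((U z) i - if i = i₀ then a else 0)⌋ :
      Fin k → ℤ)) := by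
    apply measurable_pi_lambda
    intro i
    apply Int.measurable_floor.comp
    apply Measurable.const_mul
    apply Measurable.sub_const
    have h1 : Continuous fun z : E k => (U z) i :=
      (EuclideanSpace.proj i : E k →L[ℝ] ℝ).continuous.comp U.continuous
    exact h1.measurable
  exact hm (F.finite_toSet.measurableSet)

lemma grid_approx {k : ℕ} (U : E k ≃ₗᵢ[ℝ] E k) (i₀ : Fin k) (a : ℝ) {Q : Set (E k)}
    (hQ : MeasurableSet Q) (hQb : volume Q ≠ ⊤) (hQa : ∀ z ∈ Q, a < inner ℝ (uv U i₀) z)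
    {ε : ENNReal} (hε : ε ≠ 0) :
    ∃ (p : ℕ) (F : Finset (Fin k → ℤ)), (∀ g ∈ F, 0 ≤ g i₀) ∧
      volume (symmDiff (grd U i₀ a p F) Q) ≤ ε := by
  have hε2 : ε / 2 ≠ 0 := by
    simpa using hε
  obtain ⟨K, hKQ, hKc, hK⟩ := hQ.exists_isCompact_sdiff_lt hQb hε2
  obtain ⟨O, hQO, hOo, -, hO⟩ := hQ.exists_isOpen_sdiff_lt hQb hε2
  set H : Set (E k) := {z | a < inner ℝ (uv U i₀) z} with hH
  have hHo : IsOpen H := isOpen_lt continuous_const (by fun_prop)
  have hKO : K ⊆ O ∩ H := fun z hz => ⟨hQO (hKQ hz), hQa z (hKQ hz)⟩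
  obtain ⟨δ, hδ, hthick⟩ := hKc.exists_thickening_subset_open (hOo.inter hHo) hKO
  -- the mesh
  obtain ⟨p, hp⟩ : ∃ p : ℕ, (k : ℝ) + 1 < (2 : ℝ) ^ p * δ := by
    obtain ⟨p, hp⟩ := pow_unbounded_of_one_lt (((k : ℝ) + 1) / δ) (by norm_num : (1 : ℝ) < 2)
    exact ⟨p, by rwa [div_lt_iff₀ hδ] at hp⟩
  set ind : E k → (Fin k → ℤ) := fun z => (fun i => ⌊(2 : ℝ) ^ p * ((U z) i - if i = i₀ then a else 0)⌋)
    with hind
  have hfin : (ind '' K).Finite := by
    obtain ⟨R, hR⟩ := hKc.isBounded.subset_closedBall (0 : E k)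
    have hsub : ind '' K ⊆ Set.pi Set.univ (fun _ : Fin k =>
        Set.Icc (⌊-((2 : ℝ) ^ p * (R + |a|))⌋) (⌊(2 : ℝ) ^ p * (R + |a|)⌋)) := by
      rintro _ ⟨z, hz, rfl⟩ i _
      have hzR : ‖z‖ ≤ R := by simpa using hR hz
      have h1 : |(U z) i| ≤ R := by
        refine (abs_coord_le _ _).trans ?_
        rw [LinearIsometryEquiv.norm_map]; exact hzR
      have h2 : |(if i = i₀ then a else 0 : ℝ)| ≤ |a| := by
        split_ifs
        · exact le_rfl
        · simp
      have h3 : |(U z) i - if i = i₀ then a else 0| ≤ R + |a| :=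
        (abs_sub _ _).trans (add_le_add h1 h2)
      obtain ⟨h4, h5⟩ := abs_le.1 h3
      have h2p : (0 : ℝ) < 2 ^ p := by positivity
      constructor
      · apply Int.floor_le_floor
        nlinarith
      · apply Int.floor_le_floor
        nlinarith
    exact (Set.Finite.pi' (fun _ => Set.finite_Icc _ _)).subset (by
      intro g hg i
      exact hsub hg i (Set.mem_univ i))
  refine ⟨p, hfin.toFinset, ?_, ?_⟩
  · intro g hg
    obtain ⟨z, hz, rfl⟩ := hfin.mem_toFinset.1 hg
    have h1 : a < (U z) i₀ := by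
      rw [← uv_inner]; exact hQa z (hKQ hz)
    show 0 ≤ ⌊(2 : ℝ) ^ p * ((U z) i₀ - if i₀ = i₀ then a else 0)⌋
    rw [if_pos rfl]
    apply Int.floor_nonneg.2
    have : 0 ≤ (U z) i₀ - a := by linarith
    positivity
  · have hsubK : K ⊆ grd U i₀ a p hfin.toFinset := by
      intro z hz
      show ind z ∈ hfin.toFinset
      rw [hfin.mem_toFinset]
      exact ⟨z, hz, rfl⟩
    have hsubO : grd U i₀ a p hfin.toFinset ⊆ O := by
      intro z hz
      have hz' : ind z ∈ hfin.toFinset := hz
      rw [hfin.mem_toFinset] at hz'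
      obtain ⟨z₁, hz₁, he⟩ := hz'
      have hdist : ‖z - z₁‖ < δ := by
        have h1 : ∀ i, |(U (z - z₁)) i| ≤ 1 / 2 ^ p := by
          intro i
          have h2 : ⌊(2 : ℝ) ^ p * ((U z₁) i - if i = i₀ then a else 0)⌋ =
              ⌊(2 : ℝ) ^ p * ((U z) i - if i = i₀ then a else 0)⌋ := congrFun he i
          have h3 := Int.abs_sub_lt_one_of_floor_eq_floor h2
          have h4 : (2 : ℝ) ^ p * ((U z₁) i - if i = i₀ then a else 0) -
              (2 : ℝ) ^ p * ((U z) i - if i = i₀ then a else 0) =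
              -((2 : ℝ) ^ p * (U (z - z₁)) i) := by
            rw [map_sub]
            show _ = -((2 : ℝ) ^ p * ((U z) i - (U z₁) i))
            ring
          rw [h4, abs_neg, abs_mul, abs_of_pos (by positivity : (0 : ℝ) < 2 ^ p)] at h3
          rw [le_div_iff₀ (by positivity)]
          linarith
        have h5 : ‖z - z₁‖ ≤ k * (1 / 2 ^ p) := by
          rw [← LinearIsometryEquiv.norm_map U]
          calc ‖U (z - z₁)‖ ≤ ∑ i, |(U (z - z₁)) i| := by
                rw [EuclideanSpace.norm_eq]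
                apply Real.sqrt_le_iff.2
                refine ⟨Finset.sum_nonneg fun _ _ => abs_nonneg _, ?_⟩
                simp only [Real.norm_eq_abs]
                exact Finset.sum_sq_le_sq_sum_of_nonneg (fun i _ => abs_nonneg _)
            _ ≤ ∑ _i : Fin k, (1 / 2 ^ p : ℝ) := Finset.sum_le_sum fun i _ => h1 i
            _ = k * (1 / 2 ^ p) := by simp
        have h6 : (k : ℝ) * (1 / 2 ^ p) < δ := by
          rw [mul_one_div, div_lt_iff₀ (by positivity)]
          linarith
        linarith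
      have : z ∈ Metric.thickening δ K := by
        rw [Metric.mem_thickening_iff]
        exact ⟨z₁, hz₁, by rw [dist_eq_norm]; exact hdist⟩
      exact (hthick this).1
    have hsub : symmDiff (grd U i₀ a p hfin.toFinset) Q ⊆ (O \ Q) ∪ (Q \ K) := by
      rintro z (⟨h1, h2⟩ | ⟨h1, h2⟩)
      · left; exact ⟨hsubO h1, h2⟩
      · right; exact ⟨h1, fun h => h2 (hsubK h)⟩
    calc volume (symmDiff (grd U i₀ a p hfin.toFinset) Q) ≤ volume ((O \ Q) ∪ (Q \ K)) :=
          measure_mono hsub
      _ ≤ volume (O \ Q) + volume (Q \ K) := measure_union_le _ _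
      _ ≤ ε / 2 + ε / 2 := add_le_add hO.le hK.le
      _ = ε := ENNReal.add_halves ε

/-! ## the limit -/

/-- the integrand of `dI` -/
noncomputable def igd {k : ℕ} (f : E k → ℝ) (τ : E k → E k) (z z' : E k) : ℝ :=
  (Real.log ‖τ z - τ z'‖ - Real.log ‖z - z'‖) * (f z * f z')

lemma igd_sm {k : ℕ} {f : E k → ℝ} (hf : Measurable f) {τ : E k → E k} (hτ : Measurable τ) :
    StronglyMeasurable (Function.uncurry (igd f τ)) := by
  apply Measurable.stronglyMeasurable
  unfold igd Function.uncurry
  apply Measurable.mul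
  · apply Measurable.sub
    · exact Real.measurable_log.comp
        (((hτ.comp measurable_fst).sub (hτ.comp measurable_snd)).norm)
    · exact Real.measurable_log.comp ((measurable_fst.sub measurable_snd).norm)
  · exact (hf.comp measurable_fst).mul (hf.comp measurable_snd)

lemma kern_on {k : ℕ} (hk : 0 < k) {c : E k} {R : ℝ} {w : E k} (hw : ‖w - c‖ ≤ R) :
    IntegrableOn (fun z' => |Real.log ‖w - z'‖|) (Metric.closedBall c R) ∧
    ∫ z' in Metric.closedBall c R, |Real.log ‖w - z'‖| ≤ ∫ y, Lk k (2 * R) y := by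
  have h1 : Integrable (fun z' => Lk k (2 * R) (w - z')) := (Lk_int hk (2 * R)).comp_sub_left w
  have heq : ∀ z' ∈ Metric.closedBall c R, Lk k (2 * R) (w - z') = |Real.log ‖w - z'‖| := by
    intro z' hz'
    apply Lk_eq
    have h2 : ‖z' - c‖ ≤ R := by rw [← dist_eq_norm]; exact hz'
    have h3 : w - z' = (w - c) - (z' - c) := by abel
    rw [h3]
    exact (norm_sub_le _ _).trans (by linarith)
  refine ⟨(h1.integrableOn).congr_fun heq Metric.isClosed_closedBall.measurableSet, ?_⟩
  rw [← setIntegral_congr_fun Metric.isClosed_closedBall.measurableSet heq,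
    ← integral_sub_left_eq_self (Lk k (2 * R)) volume w]
  exact setIntegral_le_integral h1 (by filter_upwards with z'; exact Lk_nonneg _ _)

end APX_

open APX_ in
theorem stmt_APX : Stmt_APX := by
  intro k f φ hk hD U i₀ a hgrid Q hQ hQa
  have hk0 : 0 < k := by rcases hk with h | h <;> omega
  obtain ⟨B, hB⟩ := hD.bdd
  obtain ⟨R₀, hR₀⟩ := hD.supp
  set u : E k := uv U i₀ with hu_def
  have hu : ‖u‖ = 1 := uv_norm U i₀
  set c : E k := a • u with hc
  set R : ℝ := |R₀| + |a| + 1 with hRdef
  have hcn : ‖c‖ = |a| := by rw [hc, norm_smul, hu, mul_one, Real.norm_eq_abs]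
  have hf0 : ∀ z : E k, R < ‖z - c‖ → f z = 0 := by
    intro z hz
    apply hR₀
    have h1 := norm_sub_le z c
    have h2 := le_abs_self R₀
    rw [hcn] at h1
    linarith
  have hB0 : 0 ≤ B := le_trans (hD.nonneg 0) (hB 0)
  -- approximation of `Q' = Q ∩ Bl`
  set Bl : Set (E k) := Metric.closedBall c R with hBl
  have hBlm : MeasurableSet Bl := Metric.isClosed_closedBall.measurableSet
  set Q' : Set (E k) := Q ∩ Bl with hQ'
  have hQ'm : MeasurableSet Q' := hQ.inter hBlm
  have hQ'f : volume Q' ≠ ⊤ := by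
    have : volume Q' ≤ volume Bl := measure_mono Set.inter_subset_right
    exact ne_top_of_le_ne_top (isCompact_closedBall c R).measure_lt_top.ne this
  have happ : ∀ m : ℕ, ∃ (p : ℕ) (F : Finset (Fin k → ℤ)), (∀ g ∈ F, 0 ≤ g i₀) ∧
      volume (symmDiff (grd U i₀ a p F) Q') ≤ (2⁻¹ : ENNReal) ^ m := by
    intro m
    apply grid_approx U i₀ a hQ'm hQ'f (fun z hz => hQa hz.1)
    exact pow_ne_zero _ (by simp)
  choose p F hF hvol using happ
  have hbc : ∀ᵐ z : E k, ∀ᶠ m in atTop, z ∉ symmDiff (grd U i₀ a (p m) (F m)) Q' := by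
    apply ae_eventually_notMem
    have h1 : ∑' m, volume (symmDiff (grd U i₀ a (p m) (F m)) Q') ≤ ∑' m : ℕ, (2⁻¹ : ENNReal) ^ m :=
      ENNReal.tsum_le_tsum hvol
    have h2 : ∑' m : ℕ, (2⁻¹ : ENNReal) ^ m ≠ ⊤ := by
      rw [ENNReal.tsum_geometric]
      simp
    exact ne_top_of_le_ne_top h2 h1
  -- the reflected statement
  have hqmp : Measure.QuasiMeasurePreserving (rfx u a) volume volume :=
    (REFL_.mp_rfx (a := a) hu).quasiMeasurePreserving
  have hgood : ∀ᵐ z : E k, z ∈ Bl → ∀ᶠ m in atTop,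
      swp u a (grd U i₀ a (p m) (F m)) z = swp u a Q z := by
    filter_upwards [hbc, hqmp.ae hbc] with z h1 h2 hz
    have hσz : rfx u a z ∈ Bl := by
      rw [hBl, Metric.mem_closedBall, dist_eq_norm] at hz ⊢
      exact rfx_ball hu a hz
    filter_upwards [h1, h2] with m h3 h4
    have key : ∀ y : E k, y ∈ Bl → y ∉ symmDiff (grd U i₀ a (p m) (F m)) Q' →
        (y ∈ grd U i₀ a (p m) (F m) ↔ y ∈ Q) := by
      intro y hy hn
      rw [Set.mem_symmDiff] at hn
      push Not at hn
      constructor
      · intro h; exact (hn.1 h).1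
      · intro h; exact hn.2 ⟨h, hy⟩
    have k1 := key z hz h3
    have k2 := key _ hσz h4
    have k3 : (z ∈ grd U i₀ a (p m) (F m) ∨ rfx u a z ∈ grd U i₀ a (p m) (F m)) ↔
        (z ∈ Q ∨ rfx u a z ∈ Q) := or_congr k1 k2
    unfold swp
    by_cases hzQ : z ∈ Q ∨ rfx u a z ∈ Q
    · have hzG := k3.2 hzQ
      rw [if_pos hzG, if_pos hzQ]
    · have hzG := fun h => hzQ (k3.1 h)
      rw [if_neg hzG, if_neg hzQ]
  have hτm : ∀ m, Measurable (swp u a (grd U i₀ a (p m) (F m))) :=
    fun m => swp_meas u a (grd_meas U i₀ a (p m) (F m))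
  set M : ℝ := ∫ y, Lk k (2 * R) y with hM
  have hM0 : 0 ≤ M := integral_nonneg fun y => Lk_nonneg _ _
  -- bound of the integrand
  have hbd : ∀ (S : Set (E k)) (z z' : E k), |igd f (swp u a S) z z'| ≤
      Bl.indicator (fun z' => f z * B * (2 * |Real.log ‖z - z'‖| + |Real.log ‖rfx u a z - z'‖|)) z' := by
    intro S z z'
    by_cases hz' : z' ∈ Bl
    · rw [Set.indicator_of_mem hz']
      unfold igd
      rw [abs_mul, abs_of_nonneg (mul_nonneg (hD.nonneg z) (hD.nonneg z'))]
      have h1 := kern_le hu a S z z'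
      have h2 : f z * f z' ≤ f z * B := mul_le_mul_of_nonneg_left (hB z') (hD.nonneg z)
      calc |Real.log ‖swp u a S z - swp u a S z'‖ - Real.log ‖z - z'‖| * (f z * f z')
          ≤ (2 * |Real.log ‖z - z'‖| + |Real.log ‖rfx u a z - z'‖|) * (f z * B) :=
            mul_le_mul h1 h2 (mul_nonneg (hD.nonneg z) (hD.nonneg z')) (by positivity)
        _ = _ := by ring
    · rw [Set.indicator_of_notMem hz']
      have : f z' = 0 := by
        apply hf0
        rw [hBl, Metric.mem_closedBall, dist_eq_norm] at hz'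
        push Not at hz'
        exact hz'
      unfold igd
      rw [this]; simp
  have hbi : ∀ z : E k, z ∈ Bl → Integrable (Bl.indicator (fun z' => f z * B *
      (2 * |Real.log ‖z - z'‖| + |Real.log ‖rfx u a z - z'‖|))) ∧
      ∫ z', Bl.indicator (fun z' => f z * B *
        (2 * |Real.log ‖z - z'‖| + |Real.log ‖rfx u a z - z'‖|)) z' ≤ f z * B * (3 * M) := by
    intro z hz
    have hz1 : ‖z - c‖ ≤ R := by rw [← dist_eq_norm]; exact hz
    have hz2 : ‖rfx u a z - c‖ ≤ R := rfx_ball hu a hz1
    obtain ⟨i1, b1⟩ := kern_on hk0 hz1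
    obtain ⟨i2, b2⟩ := kern_on hk0 hz2
    refine ⟨?_, ?_⟩
    · rw [integrable_indicator_iff hBlm]
      exact ((i1.const_mul 2).add i2).const_mul _
    · rw [integral_indicator hBlm, integral_const_mul,
        integral_add (i1.const_mul 2) i2, integral_const_mul]
      apply mul_le_mul_of_nonneg_left _ (mul_nonneg (hD.nonneg z) hB0)
      linarith
  -- the inner limits
  have hinner : ∀ᵐ z : E k, Tendsto (fun m => ∫ z', igd f (swp u a (grd U i₀ a (p m) (F m))) z z')
      atTop (𝓝 (∫ z', igd f (swp u a Q) z z')) := by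
    filter_upwards [hgood] with z hz
    by_cases hzB : z ∈ Bl
    · refine tendsto_integral_of_dominated_convergence (Bl.indicator (fun z' => f z * B *
        (2 * |Real.log ‖z - z'‖| + |Real.log ‖rfx u a z - z'‖|)))
        (fun m => ?_) (hbi z hzB).1 (fun m => ?_) ?_
      · exact ((igd_sm hD.meas (hτm m)).comp_measurable measurable_prodMk_left).aestronglyMeasurable
      · filter_upwards with z'
        rw [Real.norm_eq_abs]
        exact hbd _ z z'
      · filter_upwards [hgood] with z' hz'
        by_cases hzB' : z' ∈ Bl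
        · apply tendsto_const_nhds.congr'
          filter_upwards [hz hzB, hz' hzB'] with m e1 e2
          unfold igd
          rw [e1, e2]
        · have : f z' = 0 := by
            apply hf0
            rw [hBl, Metric.mem_closedBall, dist_eq_norm] at hzB'
            push Not at hzB'
            exact hzB'
          unfold igd
          rw [this]
          simp only [mul_zero]
          exact tendsto_const_nhds
    · have hfz : f z = 0 := by
        apply hf0
        rw [hBl, Metric.mem_closedBall, dist_eq_norm] at hzB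
        push Not at hzB
        exact hzB
      unfold igd
      rw [hfz]
      simp only [zero_mul, mul_zero, integral_zero]
      exact tendsto_const_nhds
  have hfint : Integrable f := by
    have h1 : Integrable (Bl.indicator (fun _ => B)) := by
      rw [integrable_indicator_iff hBlm]
      exact integrableOn_const (isCompact_closedBall c R).measure_lt_top.ne
    apply h1.mono' hD.meas.aestronglyMeasurable
    filter_upwards with z
    rw [Real.norm_eq_abs, abs_of_nonneg (hD.nonneg z)]
    by_cases hz : z ∈ Bl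
    · rw [Set.indicator_of_mem hz]; exact hB z
    · rw [Set.indicator_of_notMem hz, hf0 z (by
        rw [hBl, Metric.mem_closedBall, dist_eq_norm] at hz
        push Not at hz
        exact hz)]
  have houter : Tendsto (fun m => dI f (swp u a (grd U i₀ a (p m) (F m)))) atTop
      (𝓝 (dI f (swp u a Q))) := by
    show Tendsto (fun m => ∫ z, ∫ z', igd f (swp u a (grd U i₀ a (p m) (F m))) z z') atTop
      (𝓝 (∫ z, ∫ z', igd f (swp u a Q) z z'))
    refine tendsto_integral_of_dominated_convergence (fun z => f z * (B * (3 * M)))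
      (fun m => ?_) (hfint.mul_const _) (fun m => ?_) hinner
    · exact ((igd_sm hD.meas (hτm m)).integral_prod_right').aestronglyMeasurable
    · filter_upwards with z
      by_cases hzB : z ∈ Bl
      · calc ‖∫ z', igd f (swp u a (grd U i₀ a (p m) (F m))) z z'‖
            ≤ ∫ z', ‖igd f (swp u a (grd U i₀ a (p m) (F m))) z z'‖ := norm_integral_le_integral_norm _
          _ ≤ ∫ z', Bl.indicator (fun z' => f z * B *
                (2 * |Real.log ‖z - z'‖| + |Real.log ‖rfx u a z - z'‖|)) z' := by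
              apply integral_mono_of_nonneg
              · filter_upwards with z'; exact norm_nonneg _
              · exact (hbi z hzB).1
              · filter_upwards with z'
                rw [Real.norm_eq_abs]
                exact hbd _ z z'
          _ ≤ f z * B * (3 * M) := (hbi z hzB).2
          _ = f z * (B * (3 * M)) := by ring
      · have hfz : f z = 0 := by
          apply hf0
          rw [hBl, Metric.mem_closedBall, dist_eq_norm] at hzB
          push Not at hzB
          exact hzB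
        unfold igd
        rw [hfz]
        simp
  exact ge_of_tendsto' houter (fun m => hgrid (p m) (F m) (hF m))

end Pool.NS
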