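import Pool.Agent.Work.MP_b29d7f_ns.Interface3

/-!
# Block FLAR: flatness of the potential at the centre, real places
-/

set_option autoImplicit false

open Finset Filter Topology MeasureTheory

namespace Pool.NS

namespace FLAR_

/-! ## the real kernel -/

/-- `log|t-1| + log|t+1| - 2 log|t|` -/
noncomputable def h0 (r : ℝ) : ℝ := Real.log (r - 1) + Real.log (r + 1) - 2 * Real.log r

/-- the negative part times `|r|^(2/5)` -/
noncomputable def h1 (r : ℝ) : ℝ := max (-(h0 r)) 0 * |r| ^ (2 / 5 : ℝ)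

lemma h0_meas : Measurable h0 := by
  unfold h0; fun_prop

lemma h1_meas : Measurable h1 := by
  unfold h1
  exact (h0_meas.neg.max measurable_const).mul (by fun_prop)

lemma h1_nonneg (r : ℝ) : 0 ≤ h1 r :=
  mul_nonneg (le_max_right _ _) (by positivity)

lemma h0_large {r : ℝ} (hr : 2 ≤ |r|) : -(h0 r) ≤ 2 * |r| ^ (-2 : ℝ) := by
  have hr0 : 0 < |r| := by linarith
  have hrne : r ≠ 0 := abs_pos.1 hr0
  have h4 : 4 ≤ r ^ 2 := by
    have : (2 : ℝ) ^ 2 ≤ |r| ^ 2 := pow_le_pow_left₀ (by norm_num) hr 2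
    rw [sq_abs] at this; linarith
  have e1 : r - 1 ≠ 0 := by
    intro h
    have : r = 1 := by linarith
    rw [this] at h4; norm_num at h4
  have e2 : r + 1 ≠ 0 := by
    intro h
    have : r = -1 := by linarith
    rw [this] at h4; norm_num at h4
  have hlog : h0 r = Real.log (1 - 1 / r ^ 2) := by
    unfold h0
    rw [← Real.log_mul e1 e2]
    have h5 : (1 - 1 / r ^ 2) = ((r - 1) * (r + 1)) / (r ^ 2) := by
      field_simp; ring
    rw [h5, Real.log_div (mul_ne_zero e1 e2) (by positivity), Real.log_pow]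
    push_cast; ring
  have hx : 0 < 1 - 1 / r ^ 2 := by
    have : 1 / r ^ 2 ≤ 1 / 4 := one_div_le_one_div_of_le (by norm_num) h4
    linarith
  rw [hlog]
  have h6 := Real.one_sub_inv_le_log_of_pos hx
  have h7 : |r| ^ (-2 : ℝ) = 1 / r ^ 2 := by
    rw [Real.rpow_neg hr0.le, show (2 : ℝ) = ((2 : ℕ) : ℝ) by norm_num, Real.rpow_natCast, sq_abs,
      one_div]
  rw [h7]
  have h8 : 1 / r ^ 2 ≤ 1 / 4 := one_div_le_one_div_of_le (by norm_num) h4
  have h9 : 0 < 1 / r ^ 2 := by positivity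
  have h10 : (1 - 1 / r ^ 2)⁻¹ ≤ 1 + 2 * (1 / r ^ 2) := by
    rw [inv_le_comm₀ hx (by positivity)]
    rw [inv_le_iff_one_le_mul₀ (by positivity)]
    nlinarith
  linarith

lemma h1_large {r : ℝ} (hr : 2 ≤ |r|) : h1 r ≤ 8 * (1 + ‖r‖) ^ (-(8 / 5 : ℝ)) := by
  have hr0 : 0 < |r| := by linarith
  have h2 := h0_large hr
  have h3 : max (-(h0 r)) 0 ≤ 2 * |r| ^ (-2 : ℝ) := max_le h2 (by positivity)
  have h4 : h1 r ≤ 2 * |r| ^ (-2 : ℝ) * |r| ^ (2 / 5 : ℝ) :=
    mul_le_mul_of_nonneg_right h3 (by positivity)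
  have h5 : 2 * |r| ^ (-2 : ℝ) * |r| ^ (2 / 5 : ℝ) = 2 * |r| ^ (-(8 / 5) : ℝ) := by
    rw [mul_assoc, ← Real.rpow_add hr0]; norm_num
  have h6 : |r| ^ (-(8 / 5) : ℝ) ≤ 4 * (1 + ‖r‖) ^ (-(8 / 5 : ℝ)) := by
    rw [Real.norm_eq_abs, Real.rpow_neg hr0.le, Real.rpow_neg (by positivity)]
    have h7 : (1 + |r|) ^ (8 / 5 : ℝ) ≤ 4 * |r| ^ (8 / 5 : ℝ) := by
      calc (1 + |r|) ^ (8 / 5 : ℝ) ≤ (2 * |r|) ^ (8 / 5 : ℝ) :=
            Real.rpow_le_rpow (by positivity) (by linarith) (by norm_num)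
        _ = 2 ^ (8 / 5 : ℝ) * |r| ^ (8 / 5 : ℝ) := Real.mul_rpow (by norm_num) hr0.le
        _ ≤ 4 * |r| ^ (8 / 5 : ℝ) := by
            apply mul_le_mul_of_nonneg_right _ (by positivity)
            calc (2 : ℝ) ^ (8 / 5 : ℝ) ≤ 2 ^ (2 : ℝ) :=
                  Real.rpow_le_rpow_of_exponent_le (by norm_num) (by norm_num)
              _ = 4 := by norm_num
    have h8 : 0 < |r| ^ (8 / 5 : ℝ) := by positivity
    have h9 : 0 < (1 + |r|) ^ (8 / 5 : ℝ) := by positivity
    rw [inv_eq_one_div, inv_eq_one_div, mul_one_div, div_le_div_iff₀ h8 h9]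
    linarith
  linarith

/-- integrable majorant -/
noncomputable def maj (r : ℝ) : ℝ :=
  8 * (1 + ‖r‖) ^ (-(8 / 5 : ℝ)) +
    Set.indicator (Set.Icc (-2) 2) (fun r => 2 * (|Real.log (r - 1)| + |Real.log (r + 1)| +
      2 * |Real.log r|)) r

lemma h1_le_maj (r : ℝ) : h1 r ≤ maj r := by
  unfold maj
  by_cases hr : 2 ≤ |r|
  · have h2 := h1_large hr
    have h3 : 0 ≤ Set.indicator (Set.Icc (-2) 2) (fun r => 2 * (|Real.log (r - 1)| +
        |Real.log (r + 1)| + 2 * |Real.log r|)) r :=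
      Set.indicator_nonneg (fun _ _ => by positivity) _
    linarith
  · push Not at hr
    have hmem : r ∈ Set.Icc (-2 : ℝ) 2 := ⟨by linarith [neg_abs_le r], by linarith [le_abs_self r]⟩
    rw [Set.indicator_of_mem hmem]
    have h2 : max (-(h0 r)) 0 ≤ |Real.log (r - 1)| + |Real.log (r + 1)| + 2 * |Real.log r| := by
      apply max_le _ (by positivity)
      unfold h0
      have a1 := neg_abs_le (Real.log (r - 1))
      have a2 := neg_abs_le (Real.log (r + 1))
      have a3 := le_abs_self (Real.log r)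
      linarith
    have h3 : |r| ^ (2 / 5 : ℝ) ≤ 2 := by
      calc |r| ^ (2 / 5 : ℝ) ≤ 2 ^ (2 / 5 : ℝ) :=
            Real.rpow_le_rpow (abs_nonneg _) hr.le (by norm_num)
        _ ≤ 2 ^ (1 : ℝ) := Real.rpow_le_rpow_of_exponent_le (by norm_num) (by norm_num)
        _ = 2 := by norm_num
    have h4 : h1 r ≤ (|Real.log (r - 1)| + |Real.log (r + 1)| + 2 * |Real.log r|) * 2 :=
      mul_le_mul h2 h3 (by positivity) (by positivity)
    have h5 : 0 ≤ 8 * (1 + ‖r‖) ^ (-(8 / 5 : ℝ)) := by positivity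
    linarith

lemma log_on (a b c : ℝ) (hab : a ≤ b) :
    IntegrableOn (fun t => Real.log (t - c)) (Set.Icc a b) := by
  rw [integrableOn_Icc_iff_integrableOn_Ioc, ← intervalIntegrable_iff_integrableOn_Ioc_of_le hab]
  have h := (intervalIntegral.intervalIntegrable_log' (a := a - c) (b := b - c)).comp_sub_right c
  simpa using h

lemma maj_int : Integrable maj := by
  unfold maj
  apply Integrable.add
  · apply Integrable.const_mul
    apply integrable_one_add_norm
    rw [Module.finrank_self]; norm_num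
  · rw [integrable_indicator_iff measurableSet_Icc]
    apply Integrable.const_mul
    have a1 := (log_on (-2) 2 1 (by norm_num)).abs
    have a2 := (log_on (-2) 2 (-1) (by norm_num)).abs
    have a3 := (log_on (-2) 2 0 (by norm_num)).abs
    simp only [sub_neg_eq_add, sub_zero] at a2 a3
    exact (a1.add a2).add (a3.const_mul 2)

lemma h1_int : Integrable h1 := by
  apply maj_int.mono' h1_meas.aestronglyMeasurable
  filter_upwards with r
  rw [Real.norm_eq_abs, abs_of_nonneg (h1_nonneg r)]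
  exact h1_le_maj r

/-! ## the real-variable statement -/

/-- the symmetrised kernel -/
noncomputable def g (s t : ℝ) : ℝ := Real.log (t - s) + Real.log (t + s) - 2 * Real.log t

lemma g_eq {s t : ℝ} (hs : s ≠ 0) (h0t : t ≠ 0) (h1t : t ≠ s) (h2t : t ≠ -s) :
    g s t = h0 (t / s) := by
  unfold g h0
  have e1 : t / s - 1 = (t - s) / s := by field_simp
  have e2 : t / s + 1 = (t + s) / s := by field_simp
  have n1 : t - s ≠ 0 := sub_ne_zero.2 h1t
  have n2 : t + s ≠ 0 := by intro h; apply h2t; linarith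
  rw [e1, e2, Real.log_div n1 hs, Real.log_div n2 hs, Real.log_div h0t hs]
  ring

lemma g_nonpos {s t : ℝ} (h : |s| < |t|) : g s t ≤ 0 := by
  have hsq : s ^ 2 < t ^ 2 := sq_lt_sq.2 h
  have n1 : t - s ≠ 0 := by
    intro h'; have : t = s := by linarith
    rw [this] at hsq; exact lt_irrefl _ hsq
  have n2 : t + s ≠ 0 := by
    intro h'; have : t = -s := by linarith
    rw [this] at hsq; simp at hsq
  unfold g
  rw [← Real.log_mul n1 n2]
  have e : (t - s) * (t + s) = t ^ 2 - s ^ 2 := by ring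
  rw [e]
  have h2 : Real.log (t ^ 2 - s ^ 2) ≤ Real.log (t ^ 2) :=
    Real.log_le_log (by linarith) (by nlinarith [sq_nonneg s])
  rw [Real.log_pow] at h2
  push_cast at h2
  linarith

lemma ae_ne (c : ℝ) : ∀ᵐ t : ℝ, t ≠ c := by
  have : (volume : Measure ℝ) {c} = 0 := measure_singleton c
  filter_upwards [compl_mem_ae_iff.2 this] with t ht
  exact ht

lemma g_ae {s : ℝ} (hs : s ≠ 0) : ∀ᵐ t : ℝ, g s t = h0 (t / s) := by
  filter_upwards [ae_ne 0, ae_ne s, ae_ne (-s)] with t a b c
  exact g_eq hs a b c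

lemma g_on (s a b : ℝ) (hab : a ≤ b) : IntegrableOn (g s) (Set.Icc a b) := by
  unfold g
  have a1 := log_on a b s hab
  have a2 := log_on a b (-s) hab
  have a3 := log_on a b 0 hab
  simp only [sub_neg_eq_add, sub_zero] at a2 a3
  exact (a1.add a2).sub (a3.const_mul 2)

lemma g_int {s Z : ℝ} (hZ : 0 < Z) (hs : |s| < Z) : ∫ t in Set.Icc (-Z) Z, g s t ≤ 4 * s ^ 2 / Z := by
  obtain ⟨hs1, hs2⟩ := abs_lt.1 hs
  have hle : -Z ≤ Z := by linarith
  rw [integral_Icc_eq_integral_Ioc, ← intervalIntegral.integral_of_le hle]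
  unfold g
  have i1 : IntervalIntegrable (fun t => Real.log (t - s)) volume (-Z) Z := by
    have h := (intervalIntegral.intervalIntegrable_log' (a := -Z - s) (b := Z - s)).comp_sub_right s
    simpa using h
  have i2 : IntervalIntegrable (fun t => Real.log (t + s)) volume (-Z) Z := by
    have h := (intervalIntegral.intervalIntegrable_log' (a := -Z + s) (b := Z + s)).comp_add_right s
    simpa using h
  have i3 : IntervalIntegrable (fun t => Real.log t) volume (-Z) Z :=
    intervalIntegral.intervalIntegrable_log'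
  rw [intervalIntegral.integral_sub (i1.add i2) (i3.const_mul 2), intervalIntegral.integral_add i1 i2,
    intervalIntegral.integral_const_mul, intervalIntegral.integral_comp_sub_right (fun t => Real.log t),
    intervalIntegral.integral_comp_add_right (fun t => Real.log t), integral_log, integral_log,
    integral_log]
  have e1 : Real.log (-Z - s) = Real.log (Z + s) := by
    rw [← Real.log_neg_eq_log (Z + s)]; congr 1; ring
  have e2 : Real.log (-Z + s) = Real.log (Z - s) := by
    rw [← Real.log_neg_eq_log (Z - s)]; congr 1; ring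
  have e3 : Real.log (-Z) = Real.log Z := Real.log_neg_eq_log Z
  rw [e1, e2, e3]
  have p1 : 0 < Z - s := by linarith
  have p2 : 0 < Z + s := by linarith
  have q1 : Real.log (Z - s) - Real.log Z ≤ -(s / Z) := by
    rw [← Real.log_div p1.ne' hZ.ne']
    have := Real.log_le_sub_one_of_pos (div_pos p1 hZ)
    have e : (Z - s) / Z = 1 - s / Z := by field_simp
    rw [e] at this ⊢; linarith
  have q2 : Real.log (Z + s) - Real.log Z ≤ s / Z := by
    rw [← Real.log_div p2.ne' hZ.ne']
    have := Real.log_le_sub_one_of_pos (div_pos p2 hZ)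
    have e : (Z + s) / Z = 1 + s / Z := by field_simp
    rw [e] at this ⊢; linarith
  have r1 := mul_le_mul_of_nonneg_left q1 p1.le
  have r2 := mul_le_mul_of_nonneg_left q2 p2.le
  have r3 : (Z - s) * -(s / Z) + (Z + s) * (s / Z) = 2 * s ^ 2 / Z := by
    field_simp; ring
  have r4 : 4 * s ^ 2 / Z = 2 * (2 * s ^ 2 / Z) := by ring
  rw [r4, ← r3]
  nlinarith [r1, r2]

lemma gm_int {s : ℝ} (hs : s ≠ 0) :
    Integrable (fun t => max (-(g s t)) 0 * |t| ^ (2 / 5 : ℝ)) ∧
    ∫ t, max (-(g s t)) 0 * |t| ^ (2 / 5 : ℝ) = |s| ^ (7 / 5 : ℝ) * ∫ r, h1 r := by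
  have hs0 : 0 < |s| := abs_pos.2 hs
  have hae : (fun t => max (-(g s t)) 0 * |t| ^ (2 / 5 : ℝ)) =ᵐ[volume]
      fun t => |s| ^ (2 / 5 : ℝ) * h1 (s⁻¹ * t) := by
    filter_upwards [g_ae hs] with t ht
    have e : s⁻¹ * t = t / s := by field_simp
    rw [ht, e]
    unfold h1
    rw [abs_div, Real.div_rpow (abs_nonneg _) (abs_nonneg _)]
    have : (|s| ^ (2 / 5 : ℝ)) ≠ 0 := by positivity
    field_simp
  have hi : Integrable (fun t => |s| ^ (2 / 5 : ℝ) * h1 (s⁻¹ * t)) :=
    (h1_int.comp_mul_left' (inv_ne_zero hs)).const_mul _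
  refine ⟨hi.congr hae.symm, ?_⟩
  rw [integral_congr_ae hae, integral_const_mul, Measure.integral_comp_mul_left, inv_inv,
    smul_eq_mul, ← mul_assoc]
  congr 1
  have : (7 / 5 : ℝ) = 2 / 5 + 1 := by norm_num
  rw [this, Real.rpow_add hs0, Real.rpow_one]

lemma logF_int {F : ℝ → ℝ} (hm : Measurable F) (h0 : ∀ t, 0 ≤ F t) {B : ℝ} (hB : ∀ t, F t ≤ B)
    {R₁ : ℝ} (hs : ∀ t, R₁ ≤ |t| → F t = 0) (c : ℝ) :
    Integrable (fun t => Real.log (t - c) * F t) := by
  by_cases hR : 0 ≤ R₁
  · have h1 : Integrable (Set.indicator (Set.Icc (-R₁) R₁) (fun t => B * |Real.log (t - c)|)) := by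
      rw [integrable_indicator_iff measurableSet_Icc]
      exact (log_on (-R₁) R₁ c (by linarith)).abs.const_mul B
    apply h1.mono' (by
      apply Measurable.aestronglyMeasurable
      apply Measurable.mul _ hm
      fun_prop)
    filter_upwards with t
    by_cases ht : t ∈ Set.Icc (-R₁) R₁
    · rw [Set.indicator_of_mem ht, Real.norm_eq_abs, abs_mul, abs_of_nonneg (h0 t), mul_comm]
      exact mul_le_mul_of_nonneg_right (hB t) (abs_nonneg _)
    · have : R₁ ≤ |t| := by
        by_contra h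
        push Not at h
        exact ht ⟨by linarith [neg_abs_le t], by linarith [le_abs_self t]⟩
      rw [hs t this, mul_zero, norm_zero]
      exact Set.indicator_nonneg (fun _ _ => mul_nonneg (le_trans (h0 t) (hB t)) (abs_nonneg _)) _
  · have h2 : (fun t => Real.log (t - c) * F t) = fun _ => 0 := by
      funext t
      rw [hs t (by linarith [abs_nonneg t]), mul_zero]
    rw [h2]
    exact integrable_zero _ _ _

lemma main_real {F : ℝ → ℝ} (hm : Measurable F) (h0 : ∀ t, 0 ≤ F t) {B : ℝ} (hB : ∀ t, F t ≤ B)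
    {R₁ : ℝ} (hs : ∀ t, R₁ ≤ |t| → F t = 0) (heven : ∀ᵐ t, F (-t) = F t) {f0 K : ℝ} (hK : 0 ≤ K)
    (hf0 : ∀ᵐ t, F t ≤ f0) (hf1 : ∀ᵐ t, |t| ≤ 1 / 4 → f0 - K * |t| ^ (2 / 5 : ℝ) ≤ F t) :
    ∃ K₂ : ℝ, 0 ≤ K₂ ∧ ∀ s : ℝ, |s| ≤ 1 / 2 →
      (∫ t, Real.log (s - t) * F t) - (∫ t, Real.log t * F t) ≤ K₂ * |s| ^ (5 / 4 : ℝ) := by
  have hI := logF_int hm h0 hB hs
  have hB0 : 0 ≤ B := le_trans (h0 0) (hB 0)
  have hf00 : 0 ≤ f0 := by
    obtain ⟨t, ht⟩ := hf0.exists
    exact le_trans (h0 t) ht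
  have hC : 0 ≤ ∫ r, h1 r := integral_nonneg h1_nonneg
  -- small `s`
  have small : ∀ s : ℝ, s ≠ 0 → |s| ≤ 1 / 8 →
      (∫ t, Real.log (s - t) * F t) - (∫ t, Real.log t * F t) ≤
        (8 * f0 + K * (∫ r, h1 r)) * |s| ^ (5 / 4 : ℝ) := by
    intro s hs0 hs8
    have hsp : 0 < |s| := abs_pos.2 hs0
    have e1 : ∫ t, Real.log (s - t) * F t = ∫ t, Real.log (t - s) * F t := by
      congr 1; funext t
      rw [← Real.log_neg_eq_log (t - s)]; congr 2; ring
    have e2 : ∫ t, Real.log (s - t) * F t = ∫ t, Real.log (t + s) * F t := by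
      rw [← integral_neg_eq_self (fun t => Real.log (s - t) * F t)]
      apply integral_congr_ae
      filter_upwards [heven] with t ht
      rw [ht]; congr 2; ring
    have i1 := hI s
    have i2 : Integrable (fun t => Real.log (t + s) * F t) := by
      have := hI (-s); simpa using this
    have i3 : Integrable (fun t => Real.log t * F t) := by
      have := hI 0; simpa using this
    have e3 : 2 * ((∫ t, Real.log (s - t) * F t) - (∫ t, Real.log t * F t)) = ∫ t, g s t * F t := by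
      have : ∀ t, g s t * F t = (Real.log (t - s) * F t + Real.log (t + s) * F t) -
          2 * (Real.log t * F t) := by
        intro t; unfold g; ring
      simp only [this]
      have i12 : Integrable (fun t => Real.log (t - s) * F t + Real.log (t + s) * F t) := i1.add i2
      rw [integral_sub i12 (i3.const_mul 2), integral_add i1 i2, integral_const_mul,
        ← e1, ← e2]
      ring
    have iF : Integrable (fun t => g s t * F t) := by
      have : (fun t => g s t * F t) = fun t => (Real.log (t - s) * F t + Real.log (t + s) * F t) -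
          2 * (Real.log t * F t) := by
        funext t; unfold g; ring
      rw [this]
      exact (i1.add i2).sub (i3.const_mul 2)
    have hgm := gm_int hs0
    -- the majorant
    have iM1 : Integrable (Set.indicator (Set.Icc (-(1 / 4 : ℝ)) (1 / 4)) (g s)) := by
      rw [integrable_indicator_iff measurableSet_Icc]
      exact g_on s _ _ (by norm_num)
    have hle : ∫ t, g s t * F t ≤
        ∫ t, (f0 * Set.indicator (Set.Icc (-(1 / 4 : ℝ)) (1 / 4)) (g s) t +
          K * (max (-(g s t)) 0 * |t| ^ (2 / 5 : ℝ))) := by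
      apply integral_mono_ae iF ((iM1.const_mul f0).add (hgm.1.const_mul K))
      filter_upwards [hf0, hf1] with t ht0 ht1
      have hnn : 0 ≤ K * (max (-(g s t)) 0 * |t| ^ (2 / 5 : ℝ)) := by positivity
      by_cases hmem : |t| ≤ 1 / 4
      · have hmem' : t ∈ Set.Icc (-(1 / 4 : ℝ)) (1 / 4) := abs_le.1 hmem
        show g s t * F t ≤ f0 * Set.indicator (Set.Icc (-(1 / 4 : ℝ)) (1 / 4)) (g s) t +
          K * (max (-(g s t)) 0 * |t| ^ (2 / 5 : ℝ))
        rw [Set.indicator_of_mem hmem']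
        have ht1' := ht1 hmem
        rcases le_total 0 (g s t) with hg | hg
        · have := mul_le_mul_of_nonneg_left ht0 hg
          linarith
        · have hmax : max (-(g s t)) 0 = -(g s t) := max_eq_left (by linarith)
          rw [hmax] at hnn ⊢
          have h3 := mul_le_mul_of_nonneg_left ht1' (by linarith : 0 ≤ -(g s t))
          nlinarith
      · have hmem' : t ∉ Set.Icc (-(1 / 4 : ℝ)) (1 / 4) := fun h => hmem (abs_le.2 h)
        show g s t * F t ≤ f0 * Set.indicator (Set.Icc (-(1 / 4 : ℝ)) (1 / 4)) (g s) t +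
          K * (max (-(g s t)) 0 * |t| ^ (2 / 5 : ℝ))
        rw [Set.indicator_of_notMem hmem', mul_zero, zero_add]
        push Not at hmem
        have hg : g s t ≤ 0 := g_nonpos (by linarith)
        have : g s t * F t ≤ 0 := mul_nonpos_of_nonpos_of_nonneg hg (h0 t)
        linarith
    rw [integral_add (iM1.const_mul f0) (hgm.1.const_mul K), integral_const_mul, integral_const_mul,
      hgm.2, integral_indicator measurableSet_Icc] at hle
    have hgi := g_int (s := s) (Z := 1 / 4) (by norm_num) (by linarith)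
    have h5 := mul_le_mul_of_nonneg_left hgi hf00
    -- powers
    have p1 : s ^ 2 ≤ |s| ^ (5 / 4 : ℝ) := by
      have : s ^ 2 = |s| ^ (2 : ℝ) := by
        rw [show (2 : ℝ) = ((2 : ℕ) : ℝ) by norm_num, Real.rpow_natCast, sq_abs]
      rw [this]
      exact Real.rpow_le_rpow_of_exponent_ge hsp (by linarith) (by norm_num)
    have p2 : |s| ^ (7 / 5 : ℝ) ≤ |s| ^ (5 / 4 : ℝ) :=
      Real.rpow_le_rpow_of_exponent_ge hsp (by linarith) (by norm_num)
    have h6 : f0 * (4 * s ^ 2 / (1 / 4)) ≤ 16 * f0 * |s| ^ (5 / 4 : ℝ) := by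
      have := mul_le_mul_of_nonneg_left p1 hf00
      nlinarith
    have h7 : K * (|s| ^ (7 / 5 : ℝ) * ∫ r, h1 r) ≤ K * (∫ r, h1 r) * |s| ^ (5 / 4 : ℝ) := by
      have := mul_le_mul_of_nonneg_left p2 (mul_nonneg hK hC)
      nlinarith
    have h8 : 0 ≤ K * (∫ r, h1 r) * |s| ^ (5 / 4 : ℝ) := by positivity
    nlinarith
  -- large `s`
  set M : ℝ := ∫ t in Set.Icc (-(|R₁| + 1)) (|R₁| + 1), |Real.log t| with hMdef
  have hM0 : 0 ≤ M := integral_nonneg fun _ => abs_nonneg _
  have crude : ∀ s : ℝ, |s| ≤ 1 / 2 → ∫ t, |Real.log (t - s)| * F t ≤ B * M := by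
    intro s hs2
    obtain ⟨hs3, hs4⟩ := abs_le.1 hs2
    have i0 : Integrable (fun t => |Real.log (t - s)| * F t) := by
      have := (hI s).abs
      refine this.congr ?_
      filter_upwards with t
      rw [abs_mul, abs_of_nonneg (h0 t)]
    have iL : IntegrableOn (fun t => |Real.log t|) (Set.Icc (-(|R₁| + 1)) (|R₁| + 1)) := by
      have := (log_on (-(|R₁| + 1)) (|R₁| + 1) 0 (by linarith [abs_nonneg R₁])).abs
      simp only [sub_zero] at this
      exact this
    have iT : Integrable (Set.indicator (Set.Icc (-(|R₁| + 1)) (|R₁| + 1)) (fun t => |Real.log t|)) := by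
      rw [integrable_indicator_iff measurableSet_Icc]; exact iL
    have h9 : ∫ t, |Real.log (t - s)| * F t ≤
        ∫ t, B * (Set.indicator (Set.Icc (-(|R₁| + 1)) (|R₁| + 1)) (fun t => |Real.log t|) (t - s)) := by
      apply integral_mono i0 ((iT.comp_sub_right s).const_mul B)
      intro t
      show |Real.log (t - s)| * F t ≤
        B * (Set.indicator (Set.Icc (-(|R₁| + 1)) (|R₁| + 1)) (fun t => |Real.log t|) (t - s))
      by_cases ht : R₁ ≤ |t|
      · rw [hs t ht, mul_zero]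
        exact mul_nonneg hB0 (Set.indicator_nonneg (fun _ _ => abs_nonneg _) _)
      · push Not at ht
        have hR : |t| ≤ |R₁| := ht.le.trans (le_abs_self _)
        obtain ⟨ht1, ht2⟩ := abs_le.1 hR
        have hmem : t - s ∈ Set.Icc (-(|R₁| + 1)) (|R₁| + 1) := ⟨by linarith, by linarith⟩
        rw [Set.indicator_of_mem hmem, mul_comm]
        exact mul_le_mul_of_nonneg_right (hB t) (abs_nonneg _)
    rw [integral_const_mul, integral_sub_right_eq_self
      (fun t => Set.indicator (Set.Icc (-(|R₁| + 1)) (|R₁| + 1)) (fun t => |Real.log t|) t),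
      integral_indicator measurableSet_Icc] at h9
    exact h9
  have large : ∀ s : ℝ, 1 / 8 < |s| → |s| ≤ 1 / 2 →
      (∫ t, Real.log (s - t) * F t) - (∫ t, Real.log t * F t) ≤
        (128 * (B * M)) * |s| ^ (5 / 4 : ℝ) := by
    intro s hs1 hs2
    have c1 := crude s hs2
    have c2 := crude 0 (by norm_num)
    have e1 : ∫ t, Real.log (s - t) * F t = ∫ t, Real.log (t - s) * F t := by
      congr 1; funext t
      rw [← Real.log_neg_eq_log (t - s)]; congr 2; ring
    have ia : ∀ s : ℝ, Integrable (fun t => |Real.log (t - s)| * F t) := by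
      intro s
      refine (hI s).abs.congr ?_
      filter_upwards with t
      rw [abs_mul, abs_of_nonneg (h0 t)]
    have d1 : ∫ t, Real.log (t - s) * F t ≤ ∫ t, |Real.log (t - s)| * F t := by
      apply integral_mono (hI s) (ia s)
      intro t
      exact mul_le_mul_of_nonneg_right (le_abs_self _) (h0 t)
    have i3 : Integrable (fun t => Real.log t * F t) := by
      have := hI 0; simpa using this
    have i4 : Integrable (fun t => |Real.log t| * F t) := by
      have := ia 0; simpa using this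
    have d2 : -(∫ t, |Real.log t| * F t) ≤ ∫ t, Real.log t * F t := by
      rw [← integral_neg]
      apply integral_mono i4.neg i3
      intro t
      show -(|Real.log t| * F t) ≤ Real.log t * F t
      have := mul_le_mul_of_nonneg_right (neg_abs_le (Real.log t)) (h0 t)
      linarith
    simp only [sub_zero] at c2
    have p3 : (1 / 64 : ℝ) ≤ |s| ^ (5 / 4 : ℝ) := by
      calc (1 / 64 : ℝ) = (1 / 8 : ℝ) ^ (2 : ℝ) := by norm_num
        _ ≤ (1 / 8 : ℝ) ^ (5 / 4 : ℝ) :=
            Real.rpow_le_rpow_of_exponent_ge (by norm_num) (by norm_num) (by norm_num)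
        _ ≤ |s| ^ (5 / 4 : ℝ) := Real.rpow_le_rpow (by norm_num) hs1.le (by norm_num)
    have hBM : 0 ≤ B * M := mul_nonneg hB0 hM0
    nlinarith [mul_le_mul_of_nonneg_left p3 hBM]
  refine ⟨(8 * f0 + K * (∫ r, h1 r)) + 128 * (B * M), by positivity, ?_⟩
  intro s hs2
  have hpow : 0 ≤ |s| ^ (5 / 4 : ℝ) := by positivity
  have hBM : 0 ≤ 128 * (B * M) := by positivity
  have hCC : 0 ≤ 8 * f0 + K * (∫ r, h1 r) := by positivity
  by_cases hs0 : s = 0
  · subst hs0
    have e1 : ∫ t, Real.log (0 - t) * F t = ∫ t, Real.log t * F t := by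
      congr 1; funext t
      rw [zero_sub, Real.log_neg_eq_log]
    rw [e1, sub_self]
    positivity
  · rcases le_or_gt |s| (1 / 8) with h | h
    · have := small s hs0 h
      nlinarith [mul_nonneg hBM hpow]
    · have := large s h hs2
      nlinarith [mul_nonneg hCC hpow]

/-! ## densities that decrease away from `0` -/

lemma F_int {F : ℝ → ℝ} (hm : Measurable F) (h0 : ∀ t, 0 ≤ F t) {B : ℝ} (hB : ∀ t, F t ≤ B)
    {R₁ : ℝ} (hs : ∀ t, R₁ ≤ |t| → F t = 0) : Integrable F := by
  have h1 : Integrable (Set.indicator (Set.Icc (-|R₁|) |R₁|) (fun _ => B)) := by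
    rw [integrable_indicator_iff measurableSet_Icc]
    exact integrableOn_const (by simp)
  apply h1.mono' hm.aestronglyMeasurable
  filter_upwards with t
  rw [Real.norm_eq_abs, abs_of_nonneg (h0 t)]
  by_cases ht : t ∈ Set.Icc (-|R₁|) |R₁|
  · rw [Set.indicator_of_mem ht]; exact hB t
  · rw [Set.indicator_of_notMem ht]
    have : R₁ ≤ |t| := by
      by_contra h
      push Not at h
      exact ht (abs_le.1 (h.le.trans (le_abs_self _)))
    rw [hs t this]

lemma avg_eq (F : ℝ → ℝ) (x : ℝ) {h : ℝ} (hh : 0 < h) :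
    ⨍ y in Metric.closedBall x h, F y = (2 * h)⁻¹ * ∫ y in Metric.closedBall x h, F y := by
  rw [setAverage_eq, smul_eq_mul, measureReal_def, Real.volume_closedBall,
    ENNReal.toReal_ofReal (by positivity)]

lemma exists_f0 {F : ℝ → ℝ} (hm : Measurable F) (h0 : ∀ t, 0 ≤ F t) {B : ℝ} (hB : ∀ t, F t ≤ B)
    {R₁ : ℝ} (hs : ∀ t, R₁ ≤ |t| → F t = 0)
    (hmon : ∀ s : ℝ, s ≠ 0 → ∀ᵐ t : ℝ, t * s < s ^ 2 / 2 → F (s - t) ≤ F t)
    {K : ℝ} (hhold : ∀ s : ℝ, s ≠ 0 → |s| ≤ 1 / 4 → ∃ h₀ : ℝ, 0 < h₀ ∧ ∀ h : ℝ, 0 < h → h < h₀ →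
      (∫ t in Metric.closedBall (0 : ℝ) h, F t) - ∫ t in Metric.closedBall s h, F t
        ≤ K * h * |s| ^ (2 / 5 : ℝ)) :
    ∃ f0 : ℝ, (∀ᵐ t, F t ≤ f0) ∧
      ∀ᵐ t, |t| ≤ 1 / 4 → f0 - K / 2 * |t| ^ (2 / 5 : ℝ) ≤ F t := by
  have hFi := F_int hm h0 hB hs
  -- comparison of balls
  have hball : ∀ u : ℝ, u ≠ 0 → ∀ h : ℝ, 0 < h → h < |u| / 2 →
      ∫ t in Metric.closedBall u h, F t ≤ ∫ t in Metric.closedBall (0 : ℝ) h, F t := by
    intro u hu h hh hhu
    have e1 : ∫ t in Metric.closedBall u h, F t =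
        ∫ t in Metric.closedBall (0 : ℝ) h, F (u - t) := by
      rw [← integral_indicator Metric.isClosed_closedBall.measurableSet,
        ← integral_indicator Metric.isClosed_closedBall.measurableSet,
        ← integral_sub_left_eq_self _ volume u]
      congr 1
      funext t
      by_cases ht : t ∈ Metric.closedBall (0 : ℝ) h
      · have ht' : u - t ∈ Metric.closedBall u h := by
          rw [Metric.mem_closedBall, Real.dist_eq] at ht ⊢
          have : u - t - u = -(t - 0) := by ring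
          rw [this, abs_neg]; exact ht
        rw [Set.indicator_of_mem ht, Set.indicator_of_mem ht']
      · have ht' : u - t ∉ Metric.closedBall u h := by
          intro h'
          apply ht
          rw [Metric.mem_closedBall, Real.dist_eq] at h' ⊢
          have : u - t - u = -(t - 0) := by ring
          rw [this, abs_neg] at h'; exact h'
        rw [Set.indicator_of_notMem ht, Set.indicator_of_notMem ht']
    rw [e1]
    apply setIntegral_mono_on_ae (hFi.comp_sub_left u).integrableOn hFi.integrableOn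
      Metric.isClosed_closedBall.measurableSet
    filter_upwards [hmon u hu] with t ht hmem
    apply ht
    rw [Metric.mem_closedBall, Real.dist_eq, sub_zero] at hmem
    have h1 : t * u ≤ |t| * |u| := by rw [← abs_mul]; exact le_abs_self _
    have h2 : |t| * |u| < |u| / 2 * |u| :=
      mul_lt_mul_of_pos_right (by linarith) (abs_pos.2 hu)
    have h3 : |u| / 2 * |u| = u ^ 2 / 2 := by rw [← sq_abs u]; ring
    linarith
  -- Lebesgue points
  have hleb : ∀ᵐ x : ℝ, Tendsto (fun h => ⨍ y in Metric.closedBall x h, F y) (𝓝[>] (0 : ℝ))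
      (𝓝 (F x)) := by
    filter_upwards [IsUnifLocDoublingMeasure.ae_tendsto_average (μ := (volume : Measure ℝ))
      hFi.locallyIntegrable 1] with x hx
    apply hx (fun _ => x) (fun h => h) tendsto_id
    filter_upwards [self_mem_nhdsWithin] with h hh
    rw [one_mul]
    exact Metric.mem_closedBall_self (le_of_lt hh)
  set G : Set ℝ := {x | x ≠ 0 ∧ Tendsto (fun h => ⨍ y in Metric.closedBall x h, F y)
    (𝓝[>] (0 : ℝ)) (𝓝 (F x))} with hG
  have hGae : ∀ᵐ x : ℝ, x ∈ G := by
    filter_upwards [ae_ne 0, hleb] with x h1 h2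
    exact ⟨h1, h2⟩
  have hcmp : ∀ u ∈ G, ∀ v ∈ G, |v| ≤ 1 / 4 → F u ≤ F v + K / 2 * |v| ^ (2 / 5 : ℝ) := by
    intro u hu v hv hv4
    obtain ⟨h₀, hh₀, hh⟩ := hhold v hv.1 hv4
    apply le_of_tendsto_of_tendsto hu.2 (hv.2.add_const (K / 2 * |v| ^ (2 / 5 : ℝ)))
    have hm1 : Set.Ioo (0 : ℝ) (min h₀ (|u| / 2)) ∈ 𝓝[>] (0 : ℝ) :=
      Ioo_mem_nhdsGT (lt_min hh₀ (by have := abs_pos.2 hu.1; linarith))
    filter_upwards [hm1] with h hmem
    have hpos : 0 < h := hmem.1
    have hlt1 : h < h₀ := lt_of_lt_of_le hmem.2 (min_le_left _ _)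
    have hlt2 : h < |u| / 2 := lt_of_lt_of_le hmem.2 (min_le_right _ _)
    show ⨍ y in Metric.closedBall u h, F y ≤
      (⨍ y in Metric.closedBall v h, F y) + K / 2 * |v| ^ (2 / 5 : ℝ)
    rw [avg_eq F u hpos, avg_eq F v hpos]
    have b1 := hball u hu.1 h hpos hlt2
    have b2 := hh h hpos hlt1
    have b3 : ∫ t in Metric.closedBall u h, F t ≤
        (∫ t in Metric.closedBall v h, F t) + K * h * |v| ^ (2 / 5 : ℝ) := by linarith
    have b4 := mul_le_mul_of_nonneg_left b3 (by positivity : 0 ≤ (2 * h)⁻¹)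
    have b5 : (2 * h)⁻¹ * ((∫ t in Metric.closedBall v h, F t) + K * h * |v| ^ (2 / 5 : ℝ)) =
        (2 * h)⁻¹ * (∫ t in Metric.closedBall v h, F t) + K / 2 * |v| ^ (2 / 5 : ℝ) := by
      field_simp
    rw [b5] at b4
    exact b4
  obtain ⟨x0, hx0⟩ := hGae.exists
  have hbdd : BddAbove (F '' G) := ⟨B, by rintro _ ⟨x, _, rfl⟩; exact hB x⟩
  refine ⟨sSup (F '' G), ?_, ?_⟩
  · filter_upwards [hGae] with t ht
    exact le_csSup hbdd ⟨t, ht, rfl⟩
  · filter_upwards [hGae] with t ht ht4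
    have : sSup (F '' G) ≤ F t + K / 2 * |t| ^ (2 / 5 : ℝ) := by
      apply csSup_le (Set.Nonempty.image F ⟨x0, hx0⟩)
      rintro _ ⟨u, hu, rfl⟩
      exact hcmp u hu t ht ht4
    linarith

/-! ## transfer to `E 1` -/

/-- `ℝ → E 1` -/
noncomputable def io : ℝ ≃ᵐ E 1 :=
  (MeasurableEquiv.funUnique (Fin 1) ℝ).symm.trans (MeasurableEquiv.toLp 2 (Fin 1 → ℝ))

lemma io_mp : MeasurePreserving (io : ℝ → E 1) volume volume := by
  have h1 := (volume_preserving_funUnique (Fin 1) ℝ).symm
  have h2 := (EuclideanSpace.volume_preserving_symm_measurableEquiv_toLp (Fin 1)).symm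
  exact h2.comp h1

lemma io_apply (t : ℝ) (i : Fin 1) : io t i = t := rfl

lemma io_norm (t : ℝ) : ‖io t‖ = |t| := by
  rw [EuclideanSpace.norm_eq]
  simp [io_apply, Real.sqrt_sq_eq_abs]

lemma io_add (s t : ℝ) : io (s + t) = io s + io t := by
  ext i; simp [io_apply]

lemma io_neg (t : ℝ) : io (-t) = -io t := by
  ext i; simp [io_apply]

lemma io_sub (s t : ℝ) : io (s - t) = io s - io t := by
  ext i; simp [io_apply]

lemma io_smul (c t : ℝ) : io (c * t) = c • io t := by
  ext i; simp [io_apply]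

lemma io_surj (w : E 1) : io (w 0) = w := by
  ext i
  rw [io_apply]
  have : i = 0 := Subsingleton.elim _ _
  rw [this]

lemma io_inner (s t : ℝ) : inner ℝ (io s) (io t) = s * t := by
  rw [EuclideanSpace.inner_eq_star_dotProduct]
  simp [dotProduct, io_apply, mul_comm]

lemma J_mp (z₀ : E 1) : MeasurePreserving (fun t : ℝ => z₀ + io t) volume volume :=
  (measurePreserving_add_left volume z₀).comp io_mp

lemma J_emb (z₀ : E 1) : MeasurableEmbedding (fun t : ℝ => z₀ + io t) :=
  (measurableEmbedding_addLeft z₀).comp io.measurableEmbedding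

lemma J_int (z₀ : E 1) (G : E 1 → ℝ) : ∫ z, G z = ∫ t : ℝ, G (z₀ + io t) :=
  ((J_mp z₀).integral_comp (J_emb z₀) G).symm

lemma J_ball (z₀ : E 1) (G : E 1 → ℝ) (s h : ℝ) :
    ∫ z in Metric.closedBall (z₀ + io s) h, G z = ∫ t in Metric.closedBall s h, G (z₀ + io t) := by
  rw [← (J_mp z₀).setIntegral_preimage_emb (J_emb z₀)]
  congr 2
  ext t
  rw [Set.mem_preimage, Metric.mem_closedBall, Metric.mem_closedBall, dist_eq_norm, dist_eq_norm]
  have : z₀ + io t - (z₀ + io s) = io (t - s) := by rw [io_sub]; abel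
  rw [this, io_norm, Real.norm_eq_abs]

end FLAR_

open FLAR_ in
theorem stmt_FLAR : Stmt_FLAR := by
  intro k f φ z₀ hk hD hR hH
  subst hk
  obtain ⟨B, hB⟩ := hD.bdd
  obtain ⟨R₀, hR₀⟩ := hD.supp
  set F : ℝ → ℝ := fun t => f (z₀ + io t) with hF
  have hFm : Measurable F := hD.meas.comp (J_emb z₀).measurable
  have hF0 : ∀ t, 0 ≤ F t := fun t => hD.nonneg _
  have hFB : ∀ t, F t ≤ B := fun t => hB _
  have hFs : ∀ t, R₀ + ‖z₀‖ ≤ |t| → F t = 0 := by
    intro t ht
    apply hR₀
    have h1 : ‖io t‖ ≤ ‖z₀ + io t‖ + ‖z₀‖ := by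
      have := norm_sub_le (z₀ + io t) z₀
      rwa [add_sub_cancel_left] at this
    rw [io_norm] at h1
    linarith
  have heven : ∀ᵐ t, F (-t) = F t := by
    filter_upwards [(J_mp z₀).quasiMeasurePreserving.ae hR.sym] with t ht
    have e : (2 : ℝ) • z₀ - (z₀ + io t) = z₀ + io (-t) := by
      rw [io_neg, two_smul]; abel
    rw [e] at ht
    exact ht
  have hmon : ∀ s : ℝ, s ≠ 0 → ∀ᵐ t : ℝ, t * s < s ^ 2 / 2 → F (s - t) ≤ F t := by
    intro s hs
    have hsp : 0 < |s| := abs_pos.2 hs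
    set c : ℝ := -(s / |s|) with hc
    have hcsq : c * c = 1 := by
      rw [hc]
      have : s * s = |s| * |s| := (abs_mul_abs_self s).symm
      field_simp
      nlinarith
    have hcs : c * s = -|s| := by
      rw [hc]
      have : s * s = |s| * |s| := (abs_mul_abs_self s).symm
      field_simp
      nlinarith
    have hu : ‖io c‖ = 1 := by
      rw [io_norm, hc, abs_neg, abs_div, abs_abs, div_self hsp.ne']
    have hcn : c * |s| = -s := by rw [hc]; field_simp
    filter_upwards [(J_mp z₀).quasiMeasurePreserving.ae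
      (hR.mon (io c) (inner ℝ (io c) z₀ - |s| / 2) hu (by linarith))] with t ht hts
    have e1 : inner ℝ (io c) (z₀ + io t) = inner ℝ (io c) z₀ + c * t := by
      rw [inner_add_right, io_inner]
    have h1 : inner ℝ (io c) z₀ - |s| / 2 < inner ℝ (io c) (z₀ + io t) := by
      rw [e1]
      have h2 : -(|s| / 2) < c * t := by
        have h3 : |s| * (c * t) = -(s * t) := by
          have : |s| * (c * t) = (c * |s|) * t := by ring
          rw [this, hcn]; ring
        have h4 : |s| * (-(|s| / 2)) = -(s ^ 2 / 2) := by rw [← sq_abs s]; ring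
        have h5 : |s| * (-(|s| / 2)) < |s| * (c * t) := by rw [h3, h4]; linarith
        exact lt_of_mul_lt_mul_left h5 hsp.le
      linarith
    have h2 := ht h1
    have e2 : rfx (io c) (inner ℝ (io c) z₀ - |s| / 2) (z₀ + io t) = z₀ + io (s - t) := by
      unfold rfx
      rw [e1]
      have e3 : (2 * (inner ℝ (io c) z₀ + c * t - (inner ℝ (io c) z₀ - |s| / 2))) • io c =
          io (2 * t - s) := by
        rw [← io_smul]
        congr 1
        have : 2 * (inner ℝ (io c) z₀ + c * t - (inner ℝ (io c) z₀ - |s| / 2)) * c =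
          2 * t * (c * c) + c * |s| := by ring
        rw [this, hcsq, hcn]; ring
      rw [e3, add_sub_assoc, ← io_sub]
      congr 2
      ring
    rw [e2] at h2
    exact h2
  obtain ⟨K, hK, hKH⟩ := hH
  have hhold : ∀ s : ℝ, s ≠ 0 → |s| ≤ 1 / 4 → ∃ h₀ : ℝ, 0 < h₀ ∧ ∀ h : ℝ, 0 < h → h < h₀ →
      (∫ t in Metric.closedBall (0 : ℝ) h, F t) - ∫ t in Metric.closedBall s h, F t
        ≤ K * h * |s| ^ (2 / 5 : ℝ) := by
    intro s hs hs4
    obtain ⟨h₀, hh₀, hh⟩ := hKH (io s) (by rw [io_norm]; exact abs_pos.2 hs) (by rw [io_norm]; exact hs4)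
    refine ⟨h₀, hh₀, ?_⟩
    intro h hp hlt
    have h1 := hh h hp hlt
    have e0 : z₀ = z₀ + io 0 := by
      have : io 0 = 0 := by ext i; rfl
      rw [this, add_zero]
    rw [J_ball, io_norm] at h1
    have h2 : ∫ z in Metric.closedBall z₀ h, f z = ∫ t in Metric.closedBall (0 : ℝ) h, F t := by
      conv_lhs => rw [e0]
      exact J_ball z₀ f 0 h
    rw [h2] at h1
    exact h1
  obtain ⟨f0, hf0, hf1⟩ := exists_f0 hFm hF0 hFB hFs hmon hhold
  obtain ⟨K₂, hK₂, hmain⟩ := main_real hFm hF0 hFB hFs heven (by positivity : 0 ≤ K / 2) hf0 hf1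
  refine ⟨K₂, hK₂, ?_⟩
  intro w hw
  have hw' : |w 0| ≤ 1 / 2 := by
    rw [← io_norm, io_surj]; exact hw
  have h1 := hmain (w 0) hw'
  have hφ : ∀ s : ℝ, φ (z₀ + io s) = ∫ t, Real.log (s - t) * F t := by
    intro s
    rw [hD.pot, Nat.cast_one, one_mul, J_int z₀]
    congr 1
    funext t
    have : z₀ + io s - (z₀ + io t) = io (s - t) := by rw [io_sub]; abel
    rw [this, io_norm, Real.log_abs]
  have hφ0 : φ z₀ = ∫ t, Real.log t * F t := by
    have e0 : z₀ = z₀ + io 0 := by
      have : io 0 = 0 := by ext i; rfl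
      rw [this, add_zero]
    rw [e0, hφ 0]
    congr 1
    funext t
    rw [zero_sub, Real.log_neg_eq_log]
  have e1 : z₀ + w = z₀ + io (w 0) := by rw [io_surj]
  rw [e1, hφ, hφ0]
  have e2 : ‖w‖ = |w 0| := by rw [← io_norm, io_surj]
  rw [e2]
  exact h1

end Pool.NS
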